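import Mathlib

namespace Pool.Agent.Results.MP_360cb4_gt.NotDet

open Set Filter Topology Cardinal

/-- A full subcategory of spaces: a class of topological spaces. -/
abbrev Cat := ∀ (Y : Type) (_ : TopologicalSpace Y), Prop

/-- sober: each irreducible closed set is the closure of exactly one point -/
def Sober (Y : Type) [TopologicalSpace Y] : Prop :=
  ∀ A : Set Y, IsClosed A → IsIrreducible A → ∃! y, A = closure {y}

/-- `A` is `K`-determined -/
def Det (K : Cat) {X : Type} [TopologicalSpace X] (A : Set X) : Prop :=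
  ∀ (Y : Type) (t : TopologicalSpace Y), K Y t → ∀ f : X → Y, Continuous f →
    ∃! y, closure (f '' A) = closure {y}

/-- the space `X` is `K`-determined: `Irr_c(X) = K(X)` -/
def KDet (K : Cat) (X : Type) [TopologicalSpace X] : Prop :=
  {A : Set X | IsClosed A ∧ IsIrreducible A} = {A : Set X | IsClosed A ∧ Det K A}

/-- `P_H(K(X))` -/
def PH (K : Cat) (X : Type) [TopologicalSpace X] : Type := {A : Set X // IsClosed A ∧ Det K A}

instance topPH (K : Cat) (X : Type) [TopologicalSpace X] : TopologicalSpace (PH K X) :=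
  TopologicalSpace.generateFrom {W | ∃ U : Set X, IsOpen U ∧ W = {G | (G.1 ∩ U).Nonempty}}

/-- the Smyth power space: nonempty compact saturated sets -/
def PS (X : Type) [TopologicalSpace X] : Type :=
  {Q : Set X // Q.Nonempty ∧ IsCompact Q ∧ ∀ x ∈ Q, ∀ y, x ∈ closure {y} → y ∈ Q}

instance topPS (X : Type) [TopologicalSpace X] : TopologicalSpace (PS X) :=
  TopologicalSpace.generateFrom {W | ∃ U : Set X, IsOpen U ∧ W = {Q | Q.1 ⊆ U}}

def Conv {ι Y : Type} [TopologicalSpace Y] (x : ι → Y) (F : Filter ι) : Prop :=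
  ∀ V, IsOpen V → ∀ j, x j ∈ V → ∀ᶠ i in F, x i ∈ V

lemma cl_iff {Y : Type} [TopologicalSpace Y] (A : Set Y) (y : Y) :
    closure A = closure {y} ↔ ∀ V, IsOpen V → (y ∈ V ↔ (V ∩ A).Nonempty) := by
  constructor
  · intro h V hV
    constructor
    · intro hy
      have : y ∈ closure A := h ▸ subset_closure rfl
      exact mem_closure_iff.1 this V hV hy
    · rintro ⟨a, haV, haA⟩
      have : a ∈ closure {y} := h ▸ subset_closure haA
      obtain ⟨z, hz, rfl⟩ := mem_closure_iff.1 this V hV haV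
      exact hz
  · intro h
    apply Subset.antisymm
    · apply closure_minimal _ isClosed_closure
      intro a ha
      exact mem_closure_iff.2 fun V hV haV => ⟨y, (h V hV).2 ⟨a, haV, ha⟩, rfl⟩
    · apply closure_minimal _ isClosed_closure
      rintro _ rfl
      exact mem_closure_iff.2 fun V hV hy => (h V hV).1 hy

lemma gen {ι Y : Type} (B : Set (Set Y)) (F : Filter ι) [F.NeBot] (x : ι → Y) (y : Y)
    (h1 : ∀ V ∈ B, y ∈ V → ∀ᶠ i in F, x i ∈ V) (h2 : ∀ V ∈ B, ∀ i, x i ∈ V → y ∈ V) :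
    @closure Y (TopologicalSpace.generateFrom B) (range x) =
      @closure Y (TopologicalSpace.generateFrom B) {y} := by
  letI := TopologicalSpace.generateFrom B
  rw [cl_iff]
  intro V hV
  have k : (y ∈ V → ∀ᶠ i in F, x i ∈ V) ∧ ∀ i, x i ∈ V → y ∈ V := by
    induction hV with
    | basic s hs => exact ⟨h1 s hs, h2 s hs⟩
    | univ => simp
    | inter s t _ _ a b =>
      exact ⟨fun h => (a.1 h.1).and (b.1 h.2), fun i h => ⟨a.2 i h.1, b.2 i h.2⟩⟩
    | sUnion S _ a =>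
      refine ⟨fun ⟨s, hs, h⟩ => ((a s hs).1 h).mono fun i hi => ⟨s, hs, hi⟩,
        fun i ⟨s, hs, h⟩ => ⟨s, hs, (a s hs).2 i h⟩⟩
  constructor
  · intro hy
    obtain ⟨i, hi⟩ := (k.1 hy).exists
    exact ⟨x i, hi, i, rfl⟩
  · rintro ⟨_, h, i, rfl⟩
    exact k.2 i h

lemma uniq {Y : Type} [TopologicalSpace Y] [T0Space Y] {A : Set Y}
    (h : ∃ y, closure A = closure {y}) : ∃! y, closure A = closure {y} := by
  obtain ⟨y, hy⟩ := h
  refine ⟨y, hy, fun z hz => ?_⟩
  exact (inseparable_iff_closure_eq.2 (hz.symm.trans hy)).eq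

noncomputable def c (n : ℕ) : Cardinal.{0} := ℵ_ (Order.succ (n : Ordinal))
lemma c_reg (n : ℕ) : (c n).IsRegular := by
  unfold c; rw [aleph_succ]; exact isRegular_succ (aleph0_le_aleph _)
lemma c_lt {m n : ℕ} (h : m < n) : c m < c n := by
  unfold c; rw [aleph_lt_aleph]; exact Order.succ_lt_succ (by exact_mod_cast h)
lemma c_unc (n : ℕ) : ℵ₀ < c n := by
  unfold c; rw [← aleph_zero, aleph_lt_aleph]; exact Order.bot_lt_succ _

def I (n : ℕ) : Type := (c n).out
lemma mk_I (n : ℕ) : #(I n) = c n := mk_out _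
noncomputable def F (n : ℕ) : Filter (I n) := cocardinal (I n) (c_reg n)
instance (n : ℕ) : CardinalInterFilter (F n) (c n) := by unfold F; infer_instance
instance (n : ℕ) : (F n).NeBot := by
  constructor
  intro h
  have : (∅ : Set (I n)) ∈ F n := h ▸ mem_bot
  rw [F, mem_cocardinal, compl_empty, mk_univ, mk_I] at this
  exact lt_irrefl _ this
instance (n : ℕ) : Nonempty (I n) := Filter.nonempty_of_neBot (F n)
lemma ev_small {n : ℕ} {S : Set (I n)} (h : #S < c n) : ∀ᶠ i in F n, i ∉ S :=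
  eventually_cocardinal_notMem_of_card_lt h
lemma ev_ne {n : ℕ} (a : I n) : ∀ᶠ i in F n, i ≠ a := eventually_cocardinal_ne a

lemma incompat {m n : ℕ} (hmn : m ≠ n) (a : I m → I n) (J : I m → Prop)
    (h1 : ∀ b, ∀ᶠ i in F m, J i → a i ≠ b)
    (h2 : ∀ S : Set (I n), #S < c n → ∃ T : Set (I n), T.Finite ∧
      ∀ᶠ i in F m, J i → a i ∈ S → a i ∈ T) : ∀ᶠ i in F m, ¬ J i := by
  rcases lt_or_gt_of_ne hmn with h | h
  · obtain ⟨T, hT, h3⟩ := h2 (range a) (mk_range_le.trans_lt (mk_I m ▸ c_lt h))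
    have h4 := (eventually_all_finite hT).2 fun b _ => h1 b
    filter_upwards [h3, h4] with i h3 h4 hJ
    exact h4 _ (h3 hJ ⟨i, rfl⟩) hJ rfl
  · have := (eventually_cardinal_forall (l := F m) (c := c m) (mk_I n ▸ c_lt h)).2 h1
    filter_upwards [this] with i hi hJ
    exact hi _ hJ rfl

def K : Cat := fun Y t => @T0Space Y t ∧
  ∀ n (x : I n → Y), Conv x (F n) → ∃ y, closure (range x) = closure {y}

lemma K_homeo (Y Z : Type) [s : TopologicalSpace Y] [t : TopologicalSpace Z] (e : Y ≃ₜ Z)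
    (h : K Y s) : K Z t := by
  haveI := h.1
  refine ⟨e.t0Space, fun n x hx => ?_⟩
  obtain ⟨y, hy⟩ := h.2 n (e.symm ∘ x) fun V hV j hj =>
    hx (e.symm ⁻¹' V) (hV.preimage e.symm.continuous) j hj
  refine ⟨e y, ?_⟩
  rw [cl_iff] at hy ⊢
  intro V hV
  have := hy (e ⁻¹' V) (hV.preimage e.continuous)
  rw [mem_preimage] at this
  rw [this]
  constructor
  · rintro ⟨_, h, i, rfl⟩
    exact ⟨x i, by simpa using h, i, rfl⟩
  · rintro ⟨_, h, i, rfl⟩
    exact ⟨_, by simpa using h, i, rfl⟩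

lemma K_sober (Y : Type) [t : TopologicalSpace Y] [T0Space Y] (h : Sober Y) : K Y t := by
  refine ⟨inferInstance, fun n x hx => ?_⟩
  have : IsIrreducible (range x) := by
    refine ⟨range_nonempty x, ?_⟩
    rintro U V hU hV ⟨_, ⟨i, rfl⟩, hi⟩ ⟨_, ⟨j, rfl⟩, hj⟩
    obtain ⟨l, hl⟩ := ((hx U hU i hi).and (hx V hV j hj)).exists
    exact ⟨x l, ⟨l, rfl⟩, hl⟩
  exact (h _ isClosed_closure this.closure).exists

lemma K_PH (X : Type) [TopologicalSpace X] : K (PH K X) (topPH K X) := by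
  have op : ∀ U : Set X, IsOpen U → IsOpen {G : PH K X | (G.1 ∩ U).Nonempty} := fun U hU =>
    TopologicalSpace.isOpen_generateFrom_of_mem ⟨U, hU, rfl⟩
  refine ⟨?_, fun n x hx => ?_⟩
  · refine t0Space_iff_inseparable _ |>.2 fun A B hAB => ?_
    have k : ∀ A B : PH K X, Inseparable A B → A.1 ⊆ B.1 := by
      intro A B h a ha
      by_contra hb
      obtain ⟨z, h1, h2⟩ := (h.mem_open_iff (op _ B.2.1.isOpen_compl)).1 ⟨a, ha, hb⟩
      exact h2 h1
    exact Subtype.ext (Subset.antisymm (k _ _ hAB) (k _ _ hAB.symm))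
  · have hd : Det K (closure (⋃ i, (x i).1)) := by
      intro Y t hY f hf
      haveI := hY.1
      apply uniq
      choose y hy using fun i => ((x i).2.2 Y t hY f hf).exists
      have hy' : ∀ i V, IsOpen V → (y i ∈ V ↔ ((x i).1 ∩ f ⁻¹' V).Nonempty) := by
        intro i V hV
        rw [(cl_iff _ _).1 (hy i) V hV]
        constructor
        · rintro ⟨_, h, a, ha, rfl⟩; exact ⟨a, ha, h⟩
        · rintro ⟨a, ha, h⟩; exact ⟨_, h, a, ha, rfl⟩
      obtain ⟨z, hz⟩ := hY.2 n y fun V hV j hj => by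
        have := hx _ (op _ (hV.preimage hf)) j ((hy' j V hV).1 hj)
        exact this.mono fun i hi => (hy' i V hV).2 hi
      refine ⟨z, ?_⟩
      rw [cl_iff] at hz ⊢
      intro V hV
      rw [hz V hV]
      constructor
      · rintro ⟨_, h, i, rfl⟩
        obtain ⟨a, ha, h⟩ := (hy' i V hV).1 h
        exact ⟨_, h, a, subset_closure (mem_iUnion.2 ⟨i, ha⟩), rfl⟩
      · rintro ⟨_, h, a, ha, rfl⟩
        obtain ⟨b, hb, hb'⟩ := mem_closure_iff.1 ha _ (hV.preimage hf) h
        obtain ⟨i, hi⟩ := mem_iUnion.1 hb'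
        exact ⟨y i, (hy' i V hV).2 ⟨b, hi, hb⟩, i, rfl⟩
    refine ⟨⟨_, isClosed_closure, hd⟩, gen _ (F n) _ _ ?_ ?_⟩
    · rintro _ ⟨U, hU, rfl⟩ ⟨a, ha, h⟩
      obtain ⟨b, hb, hb'⟩ := mem_closure_iff.1 ha _ hU h
      obtain ⟨i, hi⟩ := mem_iUnion.1 hb'
      exact hx _ (op U hU) i ⟨b, hi, hb⟩
    · rintro _ ⟨U, hU, rfl⟩ i ⟨a, ha, h⟩
      exact ⟨a, subset_closure (mem_iUnion.2 ⟨i, ha⟩), h⟩

lemma opS {X : Type} [TopologicalSpace X] (U : Set X) (hU : IsOpen U) :
    IsOpen {Q : PS X | Q.1 ⊆ U} :=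
  TopologicalSpace.isOpen_generateFrom_of_mem ⟨U, hU, rfl⟩

lemma K_PS (X : Type) [t : TopologicalSpace X] (hX : K X t) : K (PS X) (topPS X) := by
  refine ⟨?_, fun n x hx => ?_⟩
  · refine t0Space_iff_inseparable _ |>.2 fun A B hAB => ?_
    have k : ∀ A B : PS X, Inseparable A B → A.1 ⊆ B.1 := by
      intro A B h a ha
      by_contra hb
      have h1 : B.1 ⊆ (closure {a})ᶜ := fun b hb' h' => hb (B.2.2.2 b hb' a h')
      exact (h.mem_open_iff (opS _ isClosed_closure.isOpen_compl)).2 h1 ha (subset_closure rfl)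
    exact Subtype.ext (Subset.antisymm (k _ _ hAB) (k _ _ hAB.symm))
  · have key : ∀ U, IsOpen U → (⋂ i, (x i).1) ⊆ U → ∃ i, (x i).1 ⊆ U := by
      intro U hU hsub
      by_contra hno
      push Not at hno
      obtain ⟨C, -, hC⟩ := zorn_superset_nonempty
        {C : Set X | IsClosed C ∧ C ⊆ Uᶜ ∧ ∀ i, ((x i).1 ∩ C).Nonempty} (by
          intro ch hch hchain hne
          refine ⟨⋂₀ ch, ⟨isClosed_sInter fun s hs => (hch hs).1, ?_, fun i => ?_⟩,
            fun s hs => sInter_subset_of_mem hs⟩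
          · obtain ⟨s, hs⟩ := hne
            exact (sInter_subset_of_mem hs).trans (hch hs).2.1
          · haveI := hne.to_subtype
            rw [sInter_eq_iInter]
            rw [nonempty_iff_ne_empty]
            intro h
            obtain ⟨s, hs⟩ := (x i).2.2.1.elim_directed_family_closed (fun s : ch => s.1)
              (fun s => (hch s.2).1) h (by
                intro s t
                rcases hchain.total s.2 t.2 with h | h
                · exact ⟨s, Subset.rfl, h⟩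
                · exact ⟨t, h, Subset.rfl⟩)
            exact ((hch s.2).2.2 i).ne_empty hs)
        Uᶜ ⟨hU.isClosed_compl, Subset.rfl, fun i => not_subset.1 (hno i)⟩
      choose a ha using hC.prop.2.2
      obtain ⟨y, hy⟩ := hX.2 n a fun V hV j hj => by
        have h1 : ∃ i, (x i).1 ⊆ V ∪ Cᶜ := by
          by_contra h
          push Not at h
          have := hC.le_of_le (y := C ∩ Vᶜ) ⟨hC.prop.1.inter hV.isClosed_compl,
            inter_subset_left.trans hC.prop.2.1, fun i => by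
              obtain ⟨z, h1, h2⟩ := not_subset.1 (h i)
              simp only [mem_union, mem_compl_iff, not_or, not_not] at h2
              exact ⟨z, h1, h2.2, h2.1⟩⟩ inter_subset_left
          exact (this (ha j).2).2 hj
        obtain ⟨i, hi⟩ := h1
        refine (hx _ (opS _ (hV.union hC.prop.1.isOpen_compl)) i hi).mono fun l hl => ?_
        exact (hl (ha l).1).resolve_right fun h => h (ha l).2
      have h1 : y ∈ C := by
        have : y ∈ closure (range a) := hy ▸ subset_closure rfl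
        exact closure_minimal (by rintro _ ⟨i, rfl⟩; exact (ha i).2) hC.prop.1 this
      refine hC.prop.2.1 h1 (hsub (mem_iInter.2 fun i => ?_))
      exact (x i).2.2.2 _ (ha i).1 y (hy ▸ subset_closure ⟨i, rfl⟩)
    refine ⟨⟨⋂ i, (x i).1, ?_, ?_, ?_⟩, gen _ (F n) _ _ ?_ ?_⟩
    · rw [nonempty_iff_ne_empty]
      intro h
      obtain ⟨i, hi⟩ := key ∅ isOpen_empty h.subset
      obtain ⟨z, hz⟩ := (x i).2.1
      exact hi hz
    · refine isCompact_of_finite_subcover fun {ι} U hU hsub => ?_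
      obtain ⟨i, hi⟩ := key _ (isOpen_iUnion hU) hsub
      obtain ⟨s, hs⟩ := (x i).2.2.1.elim_finite_subcover U hU hi
      exact ⟨s, (iInter_subset _ i).trans hs⟩
    · intro a ha y hy
      exact mem_iInter.2 fun i => (x i).2.2.2 a (mem_iInter.1 ha i) y hy
    · rintro _ ⟨U, hU, rfl⟩ h
      obtain ⟨i, hi⟩ := key U hU h
      exact hx _ (opS U hU) i hi
    · rintro _ ⟨U, hU, rfl⟩ i h
      exact (iInter_subset _ i).trans h

/-- one-point compactification-like sum of the spaces `I n` -/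
def X : Type := Option (Σ n, I n)
def pt (n : ℕ) (i : I n) : X := some ⟨n, i⟩
def inf : X := none

instance topX : TopologicalSpace X where
  IsOpen U := (∀ n i, pt n i ∈ U → ∀ᶠ j in F n, pt n j ∈ U) ∧
    (inf ∈ U → ∀ᶠ n in cofinite, ∀ i, pt n i ∈ U)
  isOpen_univ := by simp
  isOpen_inter := fun U V hU hV =>
    ⟨fun n i h => (hU.1 n i h.1).and (hV.1 n i h.2),
      fun h => ((hU.2 h.1).and (hV.2 h.2)).mono fun n h i => ⟨h.1 i, h.2 i⟩⟩
  isOpen_sUnion := fun S hS =>
    ⟨fun n i ⟨s, hs, h⟩ => ((hS s hs).1 n i h).mono fun j hj => ⟨s, hs, hj⟩,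
      fun ⟨s, hs, h⟩ => ((hS s hs).2 h).mono fun n hn i => ⟨s, hs, hn i⟩⟩

lemma opX (U : Set X) : IsOpen U ↔ (∀ n i, pt n i ∈ U → ∀ᶠ j in F n, pt n j ∈ U) ∧
    (inf ∈ U → ∀ᶠ n in cofinite, ∀ i, pt n i ∈ U) := Iff.rfl

lemma pt_inj (n : ℕ) : Function.Injective (pt n) := fun a b h => by
  have := Option.some.inj h
  simpa using this
lemma pt_ne {m n : ℕ} (h : m ≠ n) (i : I m) (j : I n) : pt m i ≠ pt n j := fun e =>
  h (congrArg Sigma.fst (Option.some.inj e))
lemma pt_inf (n : ℕ) (i : I n) : pt n i ≠ inf := fun e => by cases e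
lemma casesX (x : X) : x = inf ∨ ∃ n i, x = pt n i := by
  rcases x with _ | ⟨n, i⟩
  · exact Or.inl rfl
  · exact Or.inr ⟨n, i, rfl⟩

lemma cl_img (n : ℕ) (S : Set (I n)) (h : #S < c n ∨ S = Set.univ) : IsClosed (pt n '' S) := by
  rw [← isOpen_compl_iff, opX]
  constructor
  · intro m i hi
    by_cases hm : m = n
    · subst hm
      rcases h with h | rfl
      · exact (ev_small h).mono fun j hj hj' => hj ((pt_inj m).mem_set_image.1 hj')
      · exact absurd ⟨i, trivial, rfl⟩ hi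
    · exact Eventually.of_forall fun j ⟨k, _, e⟩ => pt_ne hm _ _ e.symm
  · intro _
    exact (eventually_cofinite_ne n).mono fun m hm i ⟨k, _, e⟩ => pt_ne hm _ _ e.symm

lemma op_blk (n : ℕ) : IsOpen (range (pt n)) := by
  rw [opX]
  constructor
  · rintro m i ⟨k, e⟩
    obtain rfl : n = m := by by_contra h; exact pt_ne h _ _ e
    exact Eventually.of_forall fun j => ⟨j, rfl⟩
  · rintro ⟨k, e⟩; exact absurd e (pt_inf _ _)

lemma cl_blk (n : ℕ) : IsClosed (range (pt n)) := by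
  rw [← image_univ]; exact cl_img n _ (Or.inr rfl)

lemma cl_inf : IsClosed ({inf} : Set X) := by
  rw [← isOpen_compl_iff, opX]
  exact ⟨fun n i _ => Eventually.of_forall fun j => pt_inf n j, fun h => absurd rfl h⟩

instance : T1Space X := ⟨fun x => by
  rcases casesX x with rfl | ⟨n, i, rfl⟩
  · exact cl_inf
  · rw [← image_singleton]
    exact cl_img n _ (Or.inl (by rw [mk_singleton]; exact one_lt_aleph0.trans (c_unc n)))⟩

lemma K_cube (ι : Type) (P : (ι → Prop) → Prop)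
    (h : ∀ n (x : I n → (ι → Prop)), (∀ i, P (x i)) → (∀ u j, x j u → ∀ᶠ i in F n, x i u) →
      P fun u => ∃ i, x i u) : K {g // P g} inferInstance := by
  have op : ∀ u, IsOpen {g : {g // P g} | g.1 u} := fun u =>
    continuous_Prop.1 ((continuous_apply u).comp continuous_subtype_val)
  refine ⟨inferInstance, fun n x hx => ?_⟩
  have h1 : ∀ u j, (x j).1 u → ∀ᶠ i in F n, (x i).1 u := fun u j hj => hx _ (op u) j hj
  refine ⟨⟨_, h n (fun i => (x i).1) (fun i => (x i).2) h1⟩, ?_⟩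
  apply Subset.antisymm
  · apply closure_minimal _ isClosed_closure
    rintro _ ⟨i, rfl⟩
    rw [← specializes_iff_mem_closure, subtype_specializes_iff, specializes_pi]
    intro u
    rw [specializes_iff_pure, pure_le_iff]
    intro s hs
    have := tendsto_nhds_Prop (l := pure ()) (p := fun _ => ∃ i, (x i).1 u) (q := (x i).1 u)
    exact (this.2 fun hu => ⟨i, hu⟩) hs
  · apply closure_minimal _ isClosed_closure
    rintro _ rfl
    refine mem_closure_of_tendsto (b := F n) (f := x) ?_ (Eventually.of_forall fun i => ⟨i, rfl⟩)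
    rw [tendsto_subtype_rng, tendsto_pi_nhds]
    intro u
    rw [tendsto_nhds_Prop]
    rintro ⟨j, hj⟩
    exact h1 u j hj

lemma cont_cube {Z ι : Type} [TopologicalSpace Z] {P : (ι → Prop) → Prop} (f : Z → {g // P g})
    (h : ∀ u, IsOpen {z | (f z).1 u}) : Continuous f :=
  continuous_induced_rng.2 (continuous_pi fun u => continuous_Prop.2 (h u))

lemma det_irr {Z : Type} [TopologicalSpace Z] (A : Set Z) (h : Det K A) : IsIrreducible A := by
  let f : Z → {g : Set Z → Prop // True} := fun z => ⟨fun U => IsOpen U ∧ z ∈ U, trivial⟩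
  have hf : Continuous f := cont_cube f fun U => by
    by_cases hU : IsOpen U
    · simpa [f, hU] using hU
    · simp [f, hU]
  have op : ∀ u, IsOpen {g : {g : Set Z → Prop // True} | g.1 u} := fun u =>
    continuous_Prop.1 ((continuous_apply u).comp continuous_subtype_val)
  obtain ⟨y, hy, -⟩ := h _ _ (K_cube (Set Z) (fun _ => True) fun _ _ _ _ => trivial) f hf
  rw [cl_iff] at hy
  constructor
  · obtain ⟨_, -, a, ha, -⟩ := (hy univ isOpen_univ).1 trivial
    exact ⟨a, ha⟩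
  · rintro U V hU hV ⟨a, ha, haU⟩ ⟨b, hb, hbV⟩
    obtain ⟨_, h, z, hz, rfl⟩ := (hy _ ((op U).inter (op V))).1
      ⟨(hy _ (op U)).2 ⟨f a, And.intro hU haU, a, ha, rfl⟩,
        (hy _ (op V)).2 ⟨f b, And.intro hV hbV, b, hb, rfl⟩⟩
    exact ⟨z, hz, h.1.2, h.2.2⟩

lemma kdetX : KDet K X := by
  ext A
  refine ⟨fun ⟨hc, hi⟩ => ⟨hc, ?_⟩, fun ⟨hc, hd⟩ => ⟨hc, det_irr A hd⟩⟩
  intro Y t hY f hf
  haveI := hY.1
  apply uniq
  by_cases hs : A.Subsingleton
  · obtain ⟨a, ha⟩ := hi.1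
    exact ⟨f a, by rw [hs.eq_singleton_of_mem ha, image_singleton]⟩
  · have hpre := isPreirreducible_iff_isClosed_union_isClosed.1 hi.2
    obtain ⟨n, i, hn⟩ : ∃ n i, pt n i ∈ A := by
      by_contra h
      push Not at h
      refine hs fun a ha b hb => ?_
      rcases casesX a with rfl | ⟨n, i, rfl⟩
      · rcases casesX b with rfl | ⟨n, i, rfl⟩
        · rfl
        · exact absurd hb (h _ _)
      · exact absurd ha (h _ _)
    have h1 : A ⊆ range (pt n) :=
      (hpre _ _ (cl_blk n) (op_blk n).isClosed_compl (by simp)).resolve_right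
        fun h => h hn ⟨i, rfl⟩
    have h2 : ∀ j, pt n j ∈ A := by
      by_contra h
      push Not at h
      obtain ⟨j, hj⟩ := h
      have h3 : #{k | pt n k ∈ A} < c n := by
        have := ((opX _).1 hc.isOpen_compl).1 n j hj
        rw [F, eventually_cocardinal] at this
        simpa using this
      have h4 : ∀ B ⊆ A, IsClosed B := by
        intro B hB
        have : B = pt n '' {k | pt n k ∈ B} := by
          rw [← preimage, image_preimage_eq_of_subset (hB.trans h1)]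
        rw [this]
        have h5 : {k | pt n k ∈ B} ⊆ {k | pt n k ∈ A} := fun k hk => hB hk
        exact cl_img n _ (Or.inl ((mk_le_mk_of_subset h5).trans_lt h3))
      refine hs fun a ha b hb => ?_
      by_contra hab
      rcases hpre {a} (A \ {a}) isClosed_singleton (h4 _ diff_subset) (by simp) with h | h
      · exact hab (h hb).symm
      · exact (h ha).2 rfl
    have h3 : f '' A = range (f ∘ pt n) := by
      rw [Subset.antisymm h1 (by rintro _ ⟨j, rfl⟩; exact h2 j), range_comp]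
    rw [h3]
    exact hY.2 n _ fun V hV j hj => ((opX _).1 (hV.preimage hf)).1 n j hj

def Bad (g : Set X → Prop) (n : ℕ) : Prop :=
  (∀ a, ∃ U, g U ∧ pt n a ∉ U) ∧ ∀ U, g U → ∃ a, pt n a ∈ U

def P (g : Set X → Prop) : Prop :=
  (∀ n (S : Set (I n)), #S < c n → ∃ U, g U ∧ {a ∈ S | pt n a ∈ U}.Finite) ∧ {n | Bad g n}.Finite

lemma K_P : K {g // P g} inferInstance := by
  apply K_cube
  intro m x hP hx
  constructor
  · intro n S hS
    obtain ⟨i⟩ : Nonempty (I m) := inferInstance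
    obtain ⟨U, hU, h⟩ := (hP i).1 n S hS
    exact ⟨U, ⟨i, hU⟩, h⟩
  · have key : ∀ n : ℕ, ∀ᶠ i in F m, n ≠ m → Bad (fun u => ∃ i, x i u) n → Bad (x i) n := by
      intro n
      by_cases hn : n = m
      · exact Eventually.of_forall fun i h => absurd hn h
      by_cases hb : Bad (fun u => ∃ i, x i u) n
      swap
      · exact Eventually.of_forall fun i _ h => absurd h hb
      have h1 : ∀ i, ∃ a, ¬ Bad (x i) n → ∀ U, x i U → pt n a ∈ U := by
        intro i
        by_cases h : Bad (x i) n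
        · exact ⟨Classical.arbitrary _, fun h' => absurd h h'⟩
        · by_contra h'
          push Not at h'
          exact h ⟨fun a => (h' a).2, fun U hU => hb.2 U ⟨i, hU⟩⟩
      choose a ha using h1
      refine (incompat (Ne.symm hn) a (fun i => ¬ Bad (x i) n) (fun b => ?_)
        (fun S hS => ?_)).mono fun i hi _ _ => not_not.1 hi
      · obtain ⟨U, ⟨j, hj⟩, hU⟩ := hb.1 b
        exact (hx U j hj).mono fun i hi hJ e => hU (e ▸ ha i hJ U hi)
      · obtain ⟨j⟩ : Nonempty (I m) := inferInstance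
        obtain ⟨U, hU, h⟩ := (hP j).1 n S hS
        exact ⟨_, h, (hx U j hU).mono fun i hi hJ hS => ⟨hS, ha i hJ U hi⟩⟩
    obtain ⟨i, hi⟩ := ((eventually_cardinal_forall (l := F m) (c := c m)
      (mk_nat ▸ c_unc m)).2 key).exists
    refine ((hP i).2.insert m).subset fun n hn => ?_
    by_cases h : n = m
    · exact Or.inl h
    · exact Or.inr (hi n h hn)

lemma fP (Q : PS X) : P fun U => IsOpen U ∧ Q.1 ⊆ U := by
  constructor
  · intro n S hS
    have hcl : ∀ T ⊆ S, IsClosed (pt n '' T) := fun T hT =>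
      cl_img n T (Or.inl ((mk_le_mk_of_subset hT).trans_lt hS))
    refine ⟨(pt n '' {a ∈ S | pt n a ∉ Q.1})ᶜ, ⟨(hcl _ (sep_subset _ _)).isOpen_compl, ?_⟩, ?_⟩
    · rintro _ h ⟨a, ha, rfl⟩; exact ha.2 h
    · obtain ⟨s, hs⟩ := (Q.2.2.1.inter_right (hcl S Subset.rfl)).elim_finite_subcover
        (fun a : I n => (pt n '' (S \ {a}))ᶜ) (fun a => (hcl _ diff_subset).isOpen_compl) (by
          rintro _ ⟨_, a, _, rfl⟩
          refine mem_iUnion.2 ⟨a, ?_⟩
          rintro ⟨b, hb, e⟩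
          exact hb.2 (pt_inj n e))
      refine s.finite_toSet.subset fun a ⟨ha, h⟩ => ?_
      have hQ : pt n a ∈ Q.1 := by
        by_contra h'; exact h ⟨a, ⟨ha, h'⟩, rfl⟩
      obtain ⟨b, hb, h⟩ := mem_iUnion₂.1 (hs ⟨hQ, a, ha, rfl⟩)
      by_cases e : a = b
      · exact e ▸ hb
      · exact absurd ⟨a, ⟨ha, e⟩, rfl⟩ h
  · refine finite_empty.subset fun n ⟨h1, h2⟩ => ?_
    obtain ⟨a, ha⟩ := h2 (range (pt n))ᶜ ⟨(cl_blk n).isOpen_compl, by
      rintro _ h ⟨a, rfl⟩
      obtain ⟨U, hU, h'⟩ := h1 a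
      exact h' (hU.2 h)⟩
    exact ha ⟨a, rfl⟩

def Kf (f : ∀ n, I n) : PS X :=
  ⟨insert inf (range fun n => pt n (f n)), insert_nonempty _ _, by
    refine Tendsto.isCompact_insert_range_of_cofinite fun U hU => ?_
    obtain ⟨V, hVU, hV, h⟩ := mem_nhds_iff.1 hU
    exact (((opX V).1 hV).2 h).mono fun n hn => hVU (hn _), by
    intro x hx y hy
    rw [closure_singleton] at hy
    exact hy ▸ hx⟩

def 𝒜 : Set (PS X) := {Q | inf ∈ Q.1 ∧ ∀ n, ∃ a, pt n a ∈ Q.1}

lemma Kf_mem (f : ∀ n, I n) : Kf f ∈ 𝒜 := ⟨Or.inl rfl, fun n => ⟨f n, Or.inr ⟨n, rfl⟩⟩⟩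

lemma A_closed : IsClosed 𝒜 := by
  have : 𝒜 = {Q : PS X | Q.1 ⊆ {inf}ᶜ}ᶜ ∩ ⋂ n, {Q : PS X | Q.1 ⊆ (range (pt n))ᶜ}ᶜ := by
    ext Q
    simp only [𝒜, mem_inter_iff, mem_iInter, mem_compl_iff, mem_setOf_eq, not_subset, not_not]
    constructor
    · rintro ⟨h1, h2⟩
      exact ⟨⟨_, h1, rfl⟩, fun n => (h2 n).elim fun a ha => ⟨_, ha, a, rfl⟩⟩
    · rintro ⟨⟨_, h1, rfl⟩, h2⟩
      refine ⟨h1, fun n => ?_⟩
      obtain ⟨_, h, a, rfl⟩ := h2 n
      exact ⟨a, h⟩
  rw [this]
  exact (opS _ cl_inf.isOpen_compl).isClosed_compl.inter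
    (isClosed_iInter fun n => (opS _ (cl_blk n).isOpen_compl).isClosed_compl)

lemma basisS {Z : Type} [TopologicalSpace Z] (W : Set (PS Z)) (hW : IsOpen W) :
    ∀ Q ∈ W, ∃ U, IsOpen U ∧ Q.1 ⊆ U ∧ ∀ R : PS Z, R.1 ⊆ U → R ∈ W := by
  induction hW with
  | basic s hs =>
    obtain ⟨U, hU, rfl⟩ := hs
    exact fun Q hQ => ⟨U, hU, hQ, fun R h => h⟩
  | univ => exact fun Q _ => ⟨univ, isOpen_univ, subset_univ _, fun _ _ => trivial⟩
  | inter s t _ _ a b =>
    intro Q hQ
    obtain ⟨U, hU, h1, h2⟩ := a Q hQ.1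
    obtain ⟨V, hV, h3, h4⟩ := b Q hQ.2
    exact ⟨U ∩ V, hU.inter hV, subset_inter h1 h3, fun R h =>
      ⟨h2 R (h.trans inter_subset_left), h4 R (h.trans inter_subset_right)⟩⟩
  | sUnion S _ a =>
    rintro Q ⟨s, hs, hQ⟩
    obtain ⟨U, hU, h1, h2⟩ := a s hs Q hQ
    exact ⟨U, hU, h1, fun R h => ⟨s, hs, h2 R h⟩⟩

lemma A_irr : IsIrreducible 𝒜 := by
  refine ⟨⟨_, Kf_mem fun n => Classical.arbitrary _⟩, ?_⟩
  rintro W W' hW hW' ⟨Q, hQ, hQW⟩ ⟨R, hR, hRW⟩
  obtain ⟨U, hU, h1, h2⟩ := basisS W hW Q hQW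
  obtain ⟨V, hV, h3, h4⟩ := basisS W' hW' R hRW
  have : ∀ n, ∃ a, pt n a ∈ U ∧ pt n a ∈ V := fun n => by
    obtain ⟨a, ha⟩ := hQ.2 n
    obtain ⟨b, hb⟩ := hR.2 n
    exact ((((opX U).1 hU).1 n a (h1 ha)).and (((opX V).1 hV).1 n b (h3 hb))).exists
  choose f hf using this
  refine ⟨Kf f, Kf_mem f, h2 _ ?_, h4 _ ?_⟩
  · rintro _ (rfl | ⟨n, rfl⟩)
    exacts [h1 hQ.1, (hf n).1]
  · rintro _ (rfl | ⟨n, rfl⟩)
    exacts [h3 hR.1, (hf n).2]

lemma A_not : ¬ Det K 𝒜 := by
  intro h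
  let f : PS X → {g // P g} := fun Q => ⟨_, fP Q⟩
  have hf : Continuous f := cont_cube f fun U => by
    by_cases hU : IsOpen U
    · simpa [f, hU] using opS U hU
    · simp [f, hU]
  have op : ∀ u, IsOpen {g : {g // P g} | g.1 u} := fun u =>
    continuous_Prop.1 ((continuous_apply u).comp continuous_subtype_val)
  obtain ⟨y, hy, -⟩ := h _ _ K_P f hf
  rw [cl_iff] at hy
  refine infinite_univ (y.2.2.subset fun n _ => ⟨fun a => ?_, fun U hU => ?_⟩)
  · obtain ⟨b, hb⟩ := (ev_ne a).exists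
    refine ⟨{pt n a}ᶜ, (hy _ (op _)).2 ⟨_, ?_, _,
      Kf_mem (Function.update (fun _ => Classical.arbitrary _) n b), rfl⟩, fun h => h rfl⟩
    refine ⟨isOpen_compl_singleton, ?_⟩
    rintro _ (rfl | ⟨m, rfl⟩)
    · exact (pt_inf n a).symm
    · by_cases hm : m = n
      · subst hm
        simpa using fun e => hb (pt_inj m e)
      · exact pt_ne hm _ _
  · obtain ⟨_, h, Q, hQ, rfl⟩ := (hy _ (op U)).1 hU
    obtain ⟨a, ha⟩ := hQ.2 n
    exact ⟨a, h.2 ha⟩

theorem result : ∃ K : Cat,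
    (∀ Y t, K Y t → @T0Space Y t) ∧
    (∀ (Y Z : Type) [s : TopologicalSpace Y] [t : TopologicalSpace Z],
      Nonempty (Y ≃ₜ Z) → K Y s → K Z t) ∧
    (∀ (Y : Type) [t : TopologicalSpace Y], T0Space Y → Sober Y → K Y t) ∧
    (∀ (X : Type) [TopologicalSpace X], T0Space X → K (PH K X) (topPH K X)) ∧
    (∀ (X : Type) [t : TopologicalSpace X], K X t → K (PS X) (topPS X)) ∧
    ∃ (X : Type) (_ : TopologicalSpace X), T0Space X ∧ KDet K X ∧ ¬ KDet K (PS X) ∧
      ∃ A : Set (PS X), IsClosed A ∧ IsIrreducible A ∧ ¬ Det K A := by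
  refine ⟨K, fun _ _ h => h.1, fun Y Z _ _ ⟨e⟩ h => K_homeo Y Z e h,
    fun Y _ _ h => K_sober Y h, fun X _ _ => K_PH X, fun X _ h => K_PS X h,
    X, topX, inferInstance, kdetX, fun h => A_not ?_, 𝒜, A_closed, A_irr, A_not⟩
  have : 𝒜 ∈ {A : Set (PS X) | IsClosed A ∧ IsIrreducible A} := ⟨A_closed, A_irr⟩
  rw [h] at this
  exact this.2

end Pool.Agent.Results.MP_360cb4_gt.NotDet
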